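import Pool.Agent.MP_5f7865_al.KS.Gen
import Pool.Agent.MP_c78e8e_al.Sg.Clas

namespace Pool.Agent.MP_5f7865_al.KS

open ArithmeticFunction Pool.Agent.MP_c78e8e_al.H75 Matrix

variable {r : ℕ} {C : Matrix (Fin r) (Fin r) ℤ} {K : Type} [Field K]

/-- Symmetric positive definite matrices with diagonal entries two. -/
structure Wk (C : Matrix (Fin r) (Fin r) ℤ) : Prop where
  symm : ∀ i j, C i j = C j i
  diag : ∀ i, C i i = 2
  pos : ∀ v, form C v v ≤ 0 → v = 0

theorem wk_of (h : Good0 C) : Wk C := ⟨h.symm, h.diag, h.pos⟩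

theorem wkA {r : ℕ} (h : 1 ≤ r) : Wk (CartanMatrix.A r) := by
  by_cases h2 : 2 ≤ r
  · exact wk_of (goodA h2)
  obtain rfl : r = 1 := by omega
  have d : ∀ i, CartanMatrix.A 1 i i = 2 := fun i => by simp [CartanMatrix.A]
  refine ⟨fun i j => by rw [Subsingleton.elim i j], d, fun v p => ?_⟩
  rw [form_eq] at p
  simp only [Fin.sum_univ_one, d] at p
  ext i
  obtain rfl : i = 0 := Subsingleton.elim _ _
  simp only [Pi.zero_apply]
  nlinarith

theorem fm_single (i j : Fin r) : fm C (Pi.single i 1) (Pi.single j 1) = C i j := by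
  simp only [← fm_apply, form, mulVec_single, MulOpposite.op_one, one_smul, single_dotProduct,
    col_apply, one_mul]

namespace Wk
variable (hC : Wk C)
include hC

theorem fsymm (u v : Fin r → ℤ) : fm C u v = fm C v u := by
  rw [← fm_apply, ← fm_apply, form_eq, form_eq, Finset.sum_comm]
  exact Finset.sum_congr rfl fun i _ => Finset.sum_congr rfl fun j _ => by rw [hC.symm]; ring

theorem s2 (i : Fin r) : fm C (Pi.single i 1) (Pi.single i 1) = 2 := by rw [fm_single, hC.diag]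

theorem eq2 {β γ : Fin r → ℤ} (hβ : fm C β β = 2) (hγ : fm C γ γ = 2) (h : 2 ≤ fm C β γ) : β = γ :=
  sub_eq_zero.1 (hC.pos _ (by
    simp only [fm_apply, map_sub, AddMonoidHom.sub_apply, hC.fsymm γ β]; omega))

theorem co_fix {a β : Fin r → ℤ} (hβ : fm C β β = 2) (h : fm C a β ≤ 0) (t : K) (v : Lie C K) :
    co C (xo C β t v) a = co C v a := by
  by_cases ha : fm C a a = 2
  · have : a ≠ β := by rintro rfl; omega
    rw [co_xo ha, if_neg this, if_neg this, co_non (u := a - β)]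
    · simp
    · simp only [map_sub, AddMonoidHom.sub_apply, hC.fsymm β a]; omega
  · rw [co_non ha, co_non ha]

theorem tri {u β : Fin r → ℤ} (hu : fm C u u = 2) (hβ : fm C β β = 2) :
    u = β ∨ fm C u β = 1 ∨ fm C u β ≤ 0 := by
  by_cases h : 2 ≤ fm C u β
  · exact Or.inl (hC.eq2 hu hβ h)
  · omega

theorem xo_add {β : Fin r → ℤ} (hβ : fm C β β = 2) (s t : K) (v : Lie C K) :
    xo C β s (xo C β t v) = xo C β (s + t) v := by
  have m := hC.co_fix (a := -β) hβ (by simp [hβ]) t v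
  refine lie_ext (funext fun i => by simp only [xo_fst, m]; ring) fun u hu => ?_
  rcases hC.tri hu hβ with rfl | h | h
  · simp only [Good0.co_self hβ, hb_xo, m, hβ]; push_cast; ring
  · rw [Good0.co_one hβ hu h, Good0.co_one hβ hu h, Good0.co_one hβ hu h,
      hC.co_fix hβ (by simp only [map_sub, AddMonoidHom.sub_apply]; omega)]; ring
  · simp only [hC.co_fix hβ h]

/-- The root elements. -/
def xw {β : Fin r → ℤ} (h : fm C β β = 2) (t : K) : Equiv.Perm (Lie C K) :=
  ⟨xo C β t, xo C β (-t), fun v => by rw [hC.xo_add h]; simp [Good0.xo_zero],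
    fun v => by rw [hC.xo_add h]; simp [Good0.xo_zero]⟩

theorem xw_apply {β : Fin r → ℤ} (h : fm C β β = 2) (t : K) (v : Lie C K) :
    hC.xw h t v = xo C β t v := rfl

theorem xw_add {β : Fin r → ℤ} (h : fm C β β = 2) (s t : K) :
    hC.xw h (s + t) = hC.xw h s * hC.xw h t :=
  Equiv.ext fun v => (hC.xo_add h s t v).symm

theorem root_bd {u : Fin r → ℤ} (hu : fm C u u = 2) (j : Fin r) :
    fm C u (Pi.single j 1) ∈ Finset.Icc (-2 : ℤ) 2 := by
  have h1 := hC.tri hu (hC.s2 j)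
  have h2 := hC.tri (u := -u) (by simpa using hu) (hC.s2 j)
  rw [Finset.mem_Icc]
  simp only [map_neg, AddMonoidHom.neg_apply] at h2
  rcases h1 with rfl | h1 | h1
  · rw [hu]; omega
  · omega
  · rcases h2 with h2 | h2 | h2
    · rw [← neg_neg u, h2]; simp [hC.s2]
    · omega
    · omega

theorem root_inj : Function.Injective fun (u : Root C) (j : Fin r) =>
    (⟨_, hC.root_bd u.2 j⟩ : Finset.Icc (-2 : ℤ) 2) := fun u v e => by
  refine Subtype.ext (sub_eq_zero.1 (hC.pos _ ?_))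
  have h : ∀ j, fm C (u.1 - v.1) (Pi.single j 1) = 0 := fun j => by
    have := congrArg Subtype.val (congrFun e j)
    simp only at this
    rw [map_sub, AddMonoidHom.sub_apply, this, sub_self]
  rw [fm_apply]
  generalize u.1 - v.1 = w at h
  have : fm C w w = ∑ j, w j * fm C w (Pi.single j 1) := by
    conv_lhs => rw [← congrArg (fm C w) (Finset.univ_sum_single w), map_sum]
    refine Finset.sum_congr rfl fun j _ => ?_
    rw [← smul_eq_mul, ← map_zsmul, ← Pi.single_smul]; simp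
  simp [this, h]

theorem root_fin : Finite (Root C) := Finite.of_injective _ hC.root_inj

theorem root_card : Nat.card (Root C) ≤ 5 ^ r := by
  have := Nat.card_le_card_of_injective _ hC.root_inj
  rw [Nat.card_fun, Nat.card_fin, Nat.card_eq_fintype_card (α := Finset.Icc (-2 : ℤ) 2),
    Fintype.card_coe, Int.card_Icc] at this
  exact this

end Wk

variable (C K) in
/-- Additive permutations. -/
def Ad : Subgroup (Equiv.Perm (Lie C K)) where
  carrier := {g | ∀ a b, g (a + b) = g a + g b}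
  one_mem' := fun _ _ => rfl
  mul_mem' := fun {g h} hg hh a b => by
    simp only [Equiv.Perm.mul_apply, hh a b, hg _ _]
  inv_mem' := fun {g} hg a b => by
    rw [Equiv.Perm.inv_eq_iff_eq, hg]; simp

theorem co_add (a b : Lie C K) (u : Fin r → ℤ) : co C (a + b) u = co C a u + co C b u := by
  unfold co; split_ifs <;> simp

theorem xo_plus (β : Fin r → ℤ) (t : K) (a b : Lie C K) :
    xo C β t (a + b) = xo C β t a + xo C β t b := by
  refine lie_ext (funext fun i => ?_) fun u hu => ?_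
  · simp only [xo_fst, co_add, Prod.fst_add, Pi.add_apply]; ring
  · simp only [co_add, co_xo hu, hb, Prod.fst_add, Pi.add_apply, mul_add, Finset.sum_add_distrib]
    split_ifs <;> ring

theorem chev_le (ρ : Equiv.Perm (Fin r)) (φ : K →+* K) : chev C ρ φ ≤ Ad C K := by
  refine (Subgroup.closure_le _).2 ?_
  rintro g ⟨-, β, hg⟩
  refine (Subgroup.closure_le _).2 (Set.iUnion_subset fun k => ?_) hg
  rintro h ⟨t, ht⟩ a b
  rw [ht, ht, ht]
  exact xo_plus _ t a b

theorem rx_plus (S : List (Fin r)) (e : ℤˣ) (t : K) (a b : Lie C K) :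
    rx C S e t (a + b) = rx C S e t a + rx C S e t b := by
  induction S with
  | nil => rfl
  | cons i S ih =>
    change xo C _ t (rx C S e t (a + b)) = xo C _ t (rx C S e t a) + xo C _ t (rx C S e t b)
    rw [ih, xo_plus]

theorem ree_le (D : List (List (Fin r) × Fin r)) (φ : K →+* K) : ree C D φ ≤ Ad C K := by
  refine (Subgroup.closure_le _).2 ?_
  rintro g ⟨d, -, e, hg⟩
  refine ((Subgroup.closure_le ((Ad C K).prod (Ad C K))).2 ?_ hg).1
  rintro p ⟨t, ⟨h1, h2⟩ | ⟨h1, h2⟩⟩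
  · exact ⟨fun a b => by rw [h1, rx_plus], fun a b => by rw [h2, rx_plus]⟩
  · exact ⟨fun a b => by rw [h2, rx_plus], fun a b => by rw [h1, rx_plus]⟩

/-- The bound. -/
def Nb (k : ℕ) : ℕ := (2 * k + 2) * (2 * k + 8 + 5 ^ (2 * k + 8))

theorem emb_lie [Finite K] (hC : Wk C) (T : Subgroup (Equiv.Perm (Lie C K))) (hT : T ≤ Ad C K)
    {k n : ℕ} (hK : Nat.card K ≤ ringChar K ^ (2 * k + 2)) (hr : r ≤ 2 * k + 8) (hn : Nb k ≤ n) :
    Emb n T := by
  have := hC.root_fin
  have hp : (ringChar K).Prime := CharP.char_is_prime K _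
  refine emb_of_add (ringChar K) hp (fun v => ?_) n ?_ T.subtype Subtype.val_injective
    fun g => hT g.2
  · rw [← Nat.cast_smul_eq_nsmul K, ringChar.Nat.cast_ringChar, zero_smul]
  · rw [Nat.card_prod, Nat.card_fun, Nat.card_fun, Nat.card_fin, ← pow_add]
    have h1 : r + Nat.card (Root C) ≤ 2 * k + 8 + 5 ^ (2 * k + 8) :=
      Nat.add_le_add hr (hC.root_card.trans (Nat.pow_le_pow_right (by norm_num) hr))
    calc _ ≤ (ringChar K ^ (2 * k + 2)) ^ (r + Nat.card (Root C)) := Nat.pow_le_pow_left hK _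
      _ ≤ _ := by
        rw [← pow_mul]
        exact Nat.pow_le_pow_right hp.pos ((Nat.mul_le_mul_left _ h1).trans hn)

variable (C K) in
/-- The root vector of `-β`. -/
def wv (β : Fin r → ℤ) : Lie C K := (0, fun u => if u.1 = -β then 1 else 0)

theorem co_wv {β : Fin r → ℤ} (h : fm C β β = 2) (u : Fin r → ℤ) :
    co C (wv C K β) u = if u = -β then 1 else 0 := by
  by_cases hu : fm C u u = 2
  · rw [co_root hu]; rfl
  · rw [co_non hu, if_neg]
    rintro rfl
    exact hu (by simpa using h)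

theorem xo_wv {β : Fin r → ℤ} (h : fm C β β = 2) (t : K) (i : Fin r) :
    (xo C β t (wv C K β)).1 i = -(t * β i) := by
  rw [xo_fst, co_wv h, if_pos rfl]; simp [wv]

theorem xo_fix (hC : Wk C) {β γ : Fin r → ℤ} (hβ : fm C β β = 2) (hγ : fm C γ γ = 2)
    (h : fm C β γ ≤ 0) (t : K) : xo C γ t (wv C K β) = wv C K β := by
  have ne : -γ ≠ -β := fun e => by rw [neg_injective e] at h; omega
  refine lie_ext (funext fun i => ?_) fun u hu => ?_
  · rw [xo_fst, co_wv hβ, if_neg ne]; simp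
  · rw [co_xo hu, co_wv hβ (-γ), if_neg ne, co_wv hβ (u - γ)]
    have : hb C γ (wv C K β).1 = 0 := by simp [hb, wv]
    rw [this, if_neg (c := u - γ = -β)]
    · simp
    · intro e
      have : u = γ - β := by rw [sub_eq_iff_eq_add] at e; rw [e]; abel
      rw [this] at hu
      simp only [map_sub, AddMonoidHom.sub_apply, hC.fsymm γ β] at hu
      omega

theorem mem_chev {ρ : Equiv.Perm (Fin r)} {φ : K →+* K} {g : Equiv.Perm (Lie C K)}
    (h : ∀ v, g (sigma C ρ φ v) = sigma C ρ φ (g v)) {β : Fin r → ℤ} (hβ : fm C β β = 2)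
    (hg : g ∈ Subgroup.closure (rootGroup C K β ∪ rootGroup C K (β ∘ ρ))) : g ∈ chev C ρ φ := by
  refine Subgroup.subset_closure ⟨h, ⟨β, hβ⟩, Subgroup.closure_mono ?_ hg⟩
  refine Set.union_subset (Set.subset_iUnion_of_subset 0 ?_) (Set.subset_iUnion_of_subset 1 ?_) <;>
    simp

theorem sigma_one (v : Lie C K) : sigma C 1 (RingHom.id K) v = v := by
  refine lie_ext rfl fun u hu => ?_
  rw [co_sigma (fun _ _ => rfl)]
  have : ∀ i j : Fin r, ¬ (i < j ∧ j < i) := fun i j h => h.1.not_gt h.2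
  simp [tw, this]

theorem xw_one (hC : Wk C) {β : Fin r → ℤ} (h : fm C β β = 2) (t : K) :
    hC.xw h t ∈ chev C 1 (RingHom.id K) :=
  mem_chev (fun v => by rw [sigma_one, sigma_one]) h
    (Subgroup.subset_closure (.inl ⟨t, fun _ => rfl⟩))

theorem xw_inj (hC : Wk C) {β : Fin r → ℤ} (h : fm C β β = 2) {i : Fin r} (hi : β i = 1) {t : K}
    (e : hC.xw h t (wv C K β) = wv C K β) : t = 0 := by
  have := congrArg (fun v : Lie C K => v.1 i) e
  simp only [Wk.xw_apply, xo_wv h, hi] at this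
  simpa [wv] using this

theorem tw_single (ρ : Equiv.Perm (Fin r)) (i : Fin r) : tw C ρ (Pi.single i 1) = 0 := by
  refine Finset.sum_eq_zero fun a _ => Finset.sum_eq_zero fun b _ => ?_
  split_ifs with h
  · by_cases e : a = i
    · rw [Pi.single_eq_of_ne (i' := b) (fun e' => h.1.ne (e.trans e'.symm)), mul_zero]
    · rw [Pi.single_eq_of_ne e, mul_zero, zero_mul]
  · rfl

section
variable {ρ : Equiv.Perm (Fin r)} (hρ : ∀ i, ρ (ρ i) = i) (hρC : ∀ i j, C (ρ i) (ρ j) = C i j)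
  {φ : K →+* K} (hφ : ∀ s, φ (φ s) = s) (hC : Good0 C)

include hρ in
theorem single_comp (i : Fin r) : (Pi.single i 1 : Fin r → ℤ) ∘ ρ = Pi.single (ρ i) 1 := by
  ext j
  simp only [Function.comp_apply, Pi.single_apply]
  congr 1
  exact propext ⟨fun h => by rw [← h, hρ], fun h => by rw [h, hρ]⟩

include hρ hρC in
theorem mem_fix {β : Fin r → ℤ} (h : fm C β β = 2) (e : β ∘ ρ = β) {t : K}
    (ht : (-1) ^ tw C ρ β * φ t = t) : (wk_of hC).xw h t ∈ chev C ρ φ :=
  mem_chev (fun v => by rw [Wk.xw_apply, Wk.xw_apply, sigma_xo hρ hρC hC, e, ht]) h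
    (Subgroup.subset_closure (.inl ⟨t, fun _ => rfl⟩))

/-- Elements attached to an orbit of two orthogonal simple roots. -/
def y2 (ρ : Equiv.Perm (Fin r)) (φ : K →+* K) (i : Fin r) (t : K) : Equiv.Perm (Lie C K) :=
  (wk_of hC).xw ((wk_of hC).s2 i) t * (wk_of hC).xw ((wk_of hC).s2 (ρ i)) (φ t)

theorem xw_comm {i j : Fin r} (h : C i j = 0) (s t : K) :
    Commute ((wk_of hC).xw ((wk_of hC).s2 i) s) ((wk_of hC).xw ((wk_of hC).s2 j) t) :=
  Equiv.ext fun v => hC.xo_comm ((wk_of hC).s2 i) ((wk_of hC).s2 j) (by rw [fm_single, h]) s t v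

include hρ hρC hφ in
theorem y2_mem {i : Fin r} (h : C i (ρ i) = 0) (t : K) : y2 hC ρ φ i t ∈ chev C ρ φ := by
  refine mem_chev (fun v => ?_) ((wk_of hC).s2 i) (Subgroup.mul_mem _
    (Subgroup.subset_closure (.inl ⟨t, fun _ => rfl⟩))
    (Subgroup.subset_closure (.inr ⟨φ t, fun _ => by rw [single_comp hρ]; rfl⟩)))
  have c := xw_comm hC h t (φ t)
  conv_lhs => rw [y2, c.eq]
  simp only [y2, Equiv.Perm.mul_apply, Wk.xw_apply, sigma_xo hρ hρC hC, tw_single, single_comp hρ,
    hρ, zpow_zero, one_mul, hφ]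

theorem y2_add {i : Fin r} (h : C i (ρ i) = 0) (s t : K) :
    y2 hC ρ φ i (s + t) = y2 hC ρ φ i s * y2 hC ρ φ i t := by
  rw [y2, y2, y2, map_add, Wk.xw_add, Wk.xw_add, (xw_comm hC h t (φ s)).mul_mul_mul_comm]

theorem xs_fix {i j : Fin r} (h : j ≠ i) (t : K) :
    (wk_of hC).xw ((wk_of hC).s2 j) t (wv C K (Pi.single i 1)) = wv C K (Pi.single i 1) :=
  xo_fix (wk_of hC) ((wk_of hC).s2 i) ((wk_of hC).s2 j)
    (by rw [fm_single]; exact hC.off _ _ h.symm) t

theorem y2_inj {i : Fin r} (h : ρ i ≠ i) {t : K}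
    (e : y2 hC ρ φ i t (wv C K (Pi.single i 1)) = wv C K (Pi.single i 1)) : t = 0 := by
  rw [y2, Equiv.Perm.mul_apply, xs_fix hC h] at e
  exact xw_inj _ _ (i := i) (by simp) e

include hρ hρC hφ hC in
theorem card_two [Finite K] {i : Fin r} (h : C i (ρ i) = 0) :
    Nat.card K ≤ ringChar K ^ (2 * cardFactors (Nat.card (chev C ρ φ)) + 2) := by
  have := (wk_of hC).root_fin
  refine add_le_top _ (y2 hC ρ φ i) (y2_mem hρ hρC hφ hC h) (y2_add hC h) fun s e =>
    y2_inj hC (i := i) (ρ := ρ) (φ := φ) (fun e => ?_) (by rw [e]; rfl)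
  rw [e, hC.diag] at h
  omega

include hρ hρC hC in
theorem rank_fix [Finite K] (m : ℕ) (ι : Fin m → Fin r) (hι : Function.Injective ι)
    (h : ∀ i, ρ (ι i) = ι i) : m ≤ cardFactors (Nat.card (chev C ρ φ)) := by
  have := (wk_of hC).root_fin
  refine rank_le _ m (fun i => (wk_of hC).xw ((wk_of hC).s2 (ι i)) 1)
    (fun i => wv C K (Pi.single (ι i) 1)) (fun i => mem_fix hρ hρC hC _ ?_ ?_)
    (fun i j e => xs_fix hC (hι.ne e) 1) fun i e => one_ne_zero (xw_inj _ _ (i := ι i) (by simp) e)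
  · rw [single_comp hρ, h]
  · simp [tw_single]

include hρ hρC hφ hC in
theorem rank_two [Finite K] (m : ℕ) (ι : Fin m → Fin r) (hι : Function.Injective ι)
    (h : ∀ i, C (ι i) (ρ (ι i)) = 0) (h' : ∀ i j, ρ (ι i) ≠ ι j) :
    m ≤ cardFactors (Nat.card (chev C ρ φ)) := by
  have := (wk_of hC).root_fin
  refine rank_le _ m (fun i => y2 hC ρ φ (ι i) 1)
    (fun i => wv C K (Pi.single (ι i) 1)) (fun i => y2_mem hρ hρC hφ hC (h i) 1)
    (fun i j e => ?_) fun i e => one_ne_zero (y2_inj hC (h' i i) e)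
  simp only [y2, Equiv.Perm.mul_apply, xs_fix hC (h' j i), xs_fix hC (hι.ne e)]

end

theorem card_one [Finite K] (hC : Wk C) (i : Fin r) :
    Nat.card K ≤ ringChar K ^ (2 * cardFactors (Nat.card (chev C 1 (RingHom.id K))) + 2) := by
  have := hC.root_fin
  exact add_le_top _ (hC.xw (hC.s2 i)) (xw_one hC _) (hC.xw_add _) fun s e =>
    xw_inj hC (hC.s2 i) (i := i) (by simp) (by rw [e]; rfl)

end Pool.Agent.MP_5f7865_al.KS
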