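import Pool.Agent.MP_5f7865_al.KS.Chev
import Pool.Agent.MP_c78e8e_al.Sg.G2
import Pool.Agent.MP_c78e8e_al.Mg.Sg_Re

namespace Pool.Agent.MP_5f7865_al.KS

open ArithmeticFunction Pool.Agent.MP_c78e8e_al.H75 Matrix CartanMatrix

variable {K : Type} [Field K] [Finite K] {φ : K →+* K} {n : ℕ}

theorem Nb_mono {a b : ℕ} (h : a ≤ b) : Nb a ≤ Nb b :=
  Nat.mul_le_mul (by omega) (Nat.add_le_add (by omega)
    (Nat.pow_le_pow_right (by norm_num) (by omega)))

theorem emb_one {r : ℕ} {C : Matrix (Fin r) (Fin r) ℤ} (hC : Wk C) (h : Good0 C ∨ r ≤ 8) (i : Fin r)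
    (hn : Nb (cardFactors (Nat.card (chev C 1 (RingHom.id K)))) ≤ n) :
    Emb n (chev C 1 (RingHom.id K)) := by
  refine emb_lie hC _ (chev_le _ _) (card_one hC i) ?_ hn
  rcases h with h | h
  · have := rank_fix (ρ := 1) (φ := RingHom.id K) (fun _ => rfl) (fun _ _ => rfl) h r id
      Function.injective_id fun _ => rfl
    omega
  · omega

theorem revA {r : ℕ} (i j : Fin r) : A r (Fin.revPerm i) (Fin.revPerm j) = A r i j := by
  simp only [CartanMatrix.A, of_apply, Fin.revPerm_apply, Fin.ext_iff, Fin.val_rev]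
  split_ifs <;> omega

theorem emb_rev (hφ : ∀ s, φ (φ s) = s) {r : ℕ} (h : 3 ≤ r)
    (hn : Nb (cardFactors (Nat.card (chev (A r) Fin.revPerm φ))) ≤ n) :
    Emb n (chev (A r) Fin.revPerm φ) := by
  have hC := goodA (r := r) (by omega)
  have hρ : ∀ i : Fin r, Fin.revPerm (Fin.revPerm i) = i := fun i => by simp
  have z : ∀ i : Fin r, 2 * (i : ℕ) + 2 < r → A r i (Fin.revPerm i) = 0 := fun i hi => by
    simp only [CartanMatrix.A, of_apply, Fin.revPerm_apply, Fin.ext_iff, Fin.val_rev]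
    split_ifs <;> omega
  refine emb_lie (wk_of hC) _ (chev_le _ _)
    (card_two hρ revA hφ hC (z ⟨0, by omega⟩ (by simp only; omega))) ?_ hn
  have := rank_two hρ revA hφ hC ((r - 1) / 2) (fun i => ⟨i, by omega⟩)
    (fun i j e => Fin.ext (by simpa using e)) (fun i => z _ (by simp only; omega)) fun i j e => by
      have := congrArg Fin.val e
      simp only [Fin.revPerm_apply, Fin.val_rev] at this
      omega
  omega

theorem emb_su3 (hφ : ∀ s, φ (φ s) = s) (ne : φ ≠ RingHom.id K)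
    (hn : Nb (cardFactors (Nat.card (chev (A 2) Fin.revPerm φ))) ≤ n) :
    Emb n (chev (A 2) Fin.revPerm φ) := by
  have hC := goodA (r := 2) le_rfl
  have hρ : ∀ i : Fin 2, Fin.revPerm (Fin.revPerm i) = i := fun i => by simp
  have := (wk_of hC).root_fin
  have hβ : fm (A 2) ![1, 1] ![1, 1] = 2 := by
    rw [← fm_apply, form_eq]; simp [Fin.sum_univ_two, CartanMatrix.A]
  refine emb_lie (wk_of hC) _ (chev_le _ _) (anti_le _ φ hφ ne ((wk_of hC).xw hβ) (fun s hs => ?_)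
    ((wk_of hC).xw_add hβ) fun s e => xw_inj _ hβ (i := 0) rfl (by rw [e]; rfl)) (by omega) hn
  refine mem_fix hρ revA hC hβ (by ext i; fin_cases i <;> rfl) ?_
  have : tw (A 2) Fin.revPerm ![1, 1] = -1 := by
    simp [tw, Fin.sum_univ_two, CartanMatrix.A]
  rw [this, hs]
  simp

theorem emb_d2 (hφ : ∀ s, φ (φ s) = s) {m : ℕ} (h : 2 ≤ m)
    (hn : Nb (cardFactors (Nat.card
      (chev (D (m + 2)) (Equiv.swap (Fin.last m).castSucc (Fin.last (m + 1))) φ))) ≤ n) :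
    Emb n (chev (D (m + 2)) (Equiv.swap (Fin.last m).castSucc (Fin.last (m + 1))) φ) := by
  have hC := goodD (r := m + 2) (by omega)
  have hρ : ∀ i : Fin (m + 2), Equiv.swap (Fin.last m).castSucc (Fin.last (m + 1))
      (Equiv.swap (Fin.last m).castSucc (Fin.last (m + 1)) i) = i := fun i => by simp
  have v : ∀ i : Fin (m + 2), ((Equiv.swap (Fin.last m).castSucc (Fin.last (m + 1)) i :
      Fin (m + 2)) : ℕ) = if (i : ℕ) = m then m + 1 else if (i : ℕ) = m + 1 then m else i :=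
    fun i => by
      rw [Equiv.swap_apply_def]
      simp only [Fin.ext_iff, Fin.val_castSucc, Fin.val_last]
      split_ifs <;> simp
  have hρC : ∀ i j, D (m + 2) (Equiv.swap (Fin.last m).castSucc (Fin.last (m + 1)) i)
      (Equiv.swap (Fin.last m).castSucc (Fin.last (m + 1)) j) = D (m + 2) i j := fun i j => by
    have := i.2
    have := j.2
    simp only [CartanMatrix.D, of_apply, Fin.ext_iff, v]
    split_ifs <;> omega
  refine emb_lie (wk_of hC) _ (chev_le _ _)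
    (card_two hρ hρC hφ hC (i := Fin.last (m + 1)) ?_) ?_ hn
  · simp only [CartanMatrix.D, of_apply, Fin.ext_iff, v, Fin.val_last]
    split_ifs <;> omega
  · have := rank_fix (φ := φ) hρ hρC hC m (fun i => ⟨i, by omega⟩)
      (fun i j e => Fin.ext (by simpa using e)) fun i => Fin.ext (by
        rw [v]
        have := i.2
        simp only
        split_ifs <;> omega)
    omega

theorem emb_e62 (hφ : ∀ s, φ (φ s) = s)
    (hn : Nb (cardFactors (Nat.card (chev E₆ (Equiv.swap 0 5 * Equiv.swap 2 4) φ))) ≤ n) :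
    Emb n (chev E₆ (Equiv.swap 0 5 * Equiv.swap 2 4) φ) :=
  emb_lie (wk_of good6) _ (chev_le _ _)
    (card_two (by decide) (fun i j => by revert j; fin_cases i <;> decide) hφ good6 (i := 0)
      (by decide)) (by omega) hn

theorem emb_d3 (hφ : ∀ s, φ (φ (φ s)) = s)
    (hn : Nb (cardFactors (Nat.card (chev (D 4) (Equiv.swap 0 3 * Equiv.swap 0 2) φ))) ≤ n) :
    Emb n (chev (D 4) (Equiv.swap 0 3 * Equiv.swap 0 2) φ) := by
  have hC := goodD (r := 4) (by omega)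
  have := (wk_of hC).root_fin
  obtain ⟨S, θ, hB, hR, hx, hθ, -, hN⟩ := g2l_link hφ
  have e0 : g2r (Pi.single 0 1) = Pi.single 2 1 := by ext i; fin_cases i <;> rfl
  have e2 : g2r (Pi.single 2 1) = Pi.single 3 1 := by ext i; fin_cases i <;> rfl
  have R : ∀ i, S.R (Pi.single i 1) := fun i => by rw [hR, ← g2b_fm]; exact (wk_of hC).s2 i
  have X : ∀ i s, S.x (Pi.single i 1) s = (wk_of hC).xw ((wk_of hC).s2 i) s := fun i s =>
    Equiv.ext fun v => by rw [hx, Good0.xx_apply _ ((wk_of hC).s2 i)]; rfl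
  have Y : ∀ s, g3Tr θ (S.x (Pi.single 0 1) s) = (wk_of hC).xw ((wk_of hC).s2 0) s *
      (wk_of hC).xw ((wk_of hC).s2 2) (φ s) * (wk_of hC).xw ((wk_of hC).s2 3) (φ (φ s)) :=
    fun s => by
      rw [g3Tr, hθ _ (R 0), e0, hθ _ (R 2), e2, X, X, X]
      simp
  refine emb_lie (wk_of hC) _ (chev_le _ _) (add_le_top _ (fun s => g3Tr θ (S.x (Pi.single 0 1) s))
    (fun s => (hN _ rfl).1 _ (R 0) ?_ s) (fun s t => ?_) fun s e => ?_) (by omega) hn
  · rw [e0, hB, ← g2b_fm, fm_single]; rfl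
  · simp only [Y, map_add, Wk.xw_add]
    rw [(xw_comm hC (i := 0) (j := 2) rfl t (φ s)).mul_mul_mul_comm,
      ((xw_comm hC (i := 0) (j := 3) rfl t (φ (φ s))).mul_left
        (xw_comm hC (i := 2) (j := 3) rfl (φ t) (φ (φ s)))).mul_mul_mul_comm]
  · have := congrArg (fun g : Equiv.Perm (Lie (D 4) K) => g (wv _ K (Pi.single 0 1))) e
    simp only [Y, Equiv.Perm.mul_apply, xs_fix hC (i := 0) (j := 2) (by decide),
      xs_fix hC (i := 0) (j := 3) (by decide), Equiv.Perm.one_apply] at this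
    exact xw_inj _ _ (i := 0) (by simp) this

open Ree in
theorem emb_sz (hφ : ∀ s, φ (φ s) = s ^ 2)
    (hn : Nb (cardFactors (Nat.card (ree (A 3) [([0, 2], 1)] φ))) ≤ n) :
    Emb n (ree (A 3) [([0, 2], 1)] φ) := by
  have hC := goodA (r := 3) (by omega)
  have := (wk_of hC).root_fin
  refine emb_lie (wk_of hC) _ (ree_le _ _) ?_ (by omega) hn
  by_cases h : Nat.card K ≤ 3
  · exact small_le h _
  have tw := B2.two hφ
  obtain ⟨Ψ, hk, hx⟩ := sz_psi (K := K) (r := 3) (by decide)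
  obtain ⟨s, s0, s1⟩ : ∃ s : K, s ≠ 0 ∧ s ≠ 1 := by
    by_contra! c
    have := Nat.card_eq_two_iff.2 ⟨(0 : K), 1, zero_ne_one, Set.eq_univ_of_forall fun s => by
      by_cases s = 0 <;> simp_all⟩
    omega
  have di : ∀ u v, Sc ((szB tw).D u v) → u = 0 := fun u v ⟨z, e⟩ => by
    simpa using congrFun (congrFun ((sz_D u v).symm.trans e) 1) 3
  have sg : ∀ (i j : Fin (3 + 1)) t, nata_sg K i j * t = t := fun i j t => by
    rcases nata_sg_pm (K := K) i j with e | e <;> rw [e]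
    exacts [one_mul t, by linear_combination -tw t]
  simp only [sg] at hx
  have a1 : ∀ t, rx _ [0, 2] 1 t = ⇑(Ψ ((szB tw).A t)) := fun t => funext fun v => by
    rw [szB, map_mul, Equiv.Perm.mul_apply, hx _ _ (by decide), hx _ _ (by decide),
      show rtA 0 1 = Pi.single (0 : Fin 3) ((1 : ℤˣ) : ℤ) by decide,
      show rtA 2 3 = Pi.single (2 : Fin 3) ((1 : ℤˣ) : ℤ) by decide]; rfl
  have b1 : ∀ t, rx _ [1] 1 t = ⇑(Ψ ((szB tw).B t)) := fun t => funext fun v => by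
    rw [szB, hx _ _ (by decide), show rtA 1 2 = Pi.single (1 : Fin 3) ((1 : ℤˣ) : ℤ) by decide]; rfl
  let S := (szB tw).map Ψ fun u v e => di u v ((hk _).1 e)
  refine add_le_top _ (S.u φ 0) (fun b => ?_) (fun b d => ?_) fun b e => ?_
  · refine Subgroup.subset_closure ⟨([0, 2], 1), by simp, 1, ?_⟩
    simp only [a1, b1, DFunLike.coe_fn_eq]
    exact (S.fix hφ ⟨s, s0, s1⟩ _).2 ⟨0, b, rfl⟩
  · rw [S.u_mul hφ]; simp
  · have a0 : S.A 0 = 1 := by simpa using S.A_add 0 0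
    have b0 : S.B 0 = 1 := by simpa using S.B_add 0 0
    rw [B2.u, _root_.map_zero, a0, b0, one_mul, one_mul] at e
    exact S.D_inj _ _ e

open Ree Ree.Sys Subgroup in
omit [Finite K] in
theorem fu_ree {G : Type} [Group G] (S : Sys G K) {Q : Subgroup G}
    (hQ : Q = closure {g | ∃ k ∈ [1, 9, 8, 16], (g, g) ∈ S.gr k}) : S.Fu Q := by
  have h1 : ∀ t, S.T 1 0 t ∈ Q ∧ S.T 9 0 t ∈ Q := fun t => hQ ▸
    ⟨subset_closure ⟨1, by simp, (S.gr_x (.inl rfl) _).2 ⟨t, rfl⟩⟩,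
      subset_closure ⟨9, by simp, (S.gr_x (.inr rfl) _).2 ⟨t, rfl⟩⟩⟩
  have z8 : ∀ s, S.T 8 3 s ∈ Q := fun s => hQ ▸ subset_closure ⟨8, by simp, S.gr_z (.inl rfl) s⟩
  have z16 : ∀ s, S.T 16 3 s ∈ Q := fun s => hQ ▸ subset_closure ⟨16, by simp, S.gr_z (.inr rfl) s⟩
  have ec : S.nn n8 * S.a * (S.nn n8)⁻¹ = S.c := by
    rw [a_eq, c_eq, ← S.cT (N := n8) (k := 1) (k' := 7) (by decide +kernel),
      ← S.cT (N := n8) (k := 9) (k' := 15) (by decide +kernel)]
    group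
  have ha : S.a ∈ Q := S.a_eq ▸ mul_mem (mul_mem (h1 1).1 (h1 1).2) (h1 1).1
  have hc : S.c ∈ Q := ec ▸ cj_mem (S.n8_mem (z8 1) (z16 1)) ha
  exact S.fu_of (fun _ => cj_mem ha) (fun _ => cj_mem hc) fun s =>
    S.cT (N := nk 7) (k := 2) (k' := 4) (i := 3) (by decide +kernel) s ▸ cj_mem hc
      (S.cT (N := nk 1) (k := 8) (k' := 2) (i := 3) (by decide +kernel) s ▸ cj_mem ha (z8 s))

open Ree in
theorem emb_f4 (hφ : ∀ s, φ (φ s) = s ^ 2)
    (hn : Nb (cardFactors (Nat.card (⁅ree E₆ [([0, 5], 1), ([2, 4], 3)] φ,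
      ree E₆ [([0, 5], 1), ([2, 4], 3)] φ⁆ : Subgroup _))) ≤ n) :
    Emb n (⁅ree E₆ [([0, 5], 1), ([2, 4], 3)] φ,
      ree E₆ [([0, 5], 1), ([2, 4], 3)] φ⁆ : Subgroup _) := by
  have := (wk_of good6).root_fin
  have fQ : (sys φ hφ).Fu (ree E₆ [([0, 5], 1), ([2, 4], 3)] φ) := by
    refine fu_ree _ (congrArg Subgroup.closure (Set.ext fun g => ?_))
    simp only [Set.mem_ofPred_eq, List.mem_cons, List.not_mem_nil, or_false, exists_eq_or_imp,
      exists_eq_left]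
    rw [gr_eq φ hφ (k := 1) (e := 1) (i := 0) (j := 5) (l := 1) (by decide) (by decide) (by decide)
        (by decide),
      gr_eq φ hφ (k := 9) (e := -1) (i := 0) (j := 5) (l := 1) (by decide) (by decide) (by decide)
        (by decide),
      gr_eq φ hφ (k := 8) (e := 1) (i := 2) (j := 4) (l := 3) (by decide) (by decide) (by decide)
        (by decide),
      gr_eq φ hφ (k := 16) (e := -1) (i := 2) (j := 4) (l := 3) (by decide) (by decide) (by decide)
        (by decide)]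
    have : ∀ P : ℤˣ → Prop, (∃ e, P e) ↔ P 1 ∨ P (-1) := fun P =>
      ⟨fun ⟨e, h⟩ => by rcases Int.units_eq_one_or e with rfl | rfl <;> simp [h],
        fun h => h.elim (⟨_, ·⟩) (⟨_, ·⟩)⟩
    rw [this, this, or_assoc]
  refine emb_lie (wk_of good6) _ (le_trans (Subgroup.commutator_le.2 fun a ha b hb => ?_)
    (ree_le [([0, 5], 1), ([2, 4], 3)] φ)) (add_le_top _ ((sys φ hφ).T 1 0) (fQ.comm.x 1 (by simp))
      ((sys φ hφ).T_add (by decide +kernel)) fun s e => ?_) (by omega) hn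
  · exact mul_mem (mul_mem (mul_mem ha hb) (inv_mem ha)) (inv_mem hb)
  · exact (map_eq_zero _).1 ((sys φ hφ).ab_inj (.inl rfl) ((mul_assoc _ _ _).trans e))

omit [Finite K] in
open Subgroup in
theorem g2u_ex (h3 : (3 : K) = 0) : ∃ S : G2u (Equiv.Perm (Lie (D 4) K)) K,
    (∀ t, rx _ [0, 2, 3] 1 t = ⇑(S.n t 0 0 0 0 0)) ∧ ∀ t, rx _ [1] 1 t = ⇑(S.n 0 t 0 0 0 0) := by
  obtain ⟨Ψ, hF⟩ : ∃ Ψ : sog 7 K →* Equiv.Perm (Lie (CartanMatrix.D 4) K),
      ∀ g, orta1_R (n := 2) g.1.1 (Ψ g) := by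
    choose F hF using orta1_ex (n := 2) (K := K) one_le_two
    exact ⟨MonoidHom.mk' F fun a b => orta1_R_eq one_le_two (hF _) (orta1_R_mul (hF a) (hF b)), hF⟩
  have ker : ∀ g, Ψ g = 1 → Sc g.1 := fun g e => rel_ker (e ▸ hF g)
  have me : ∀ {i j : Fin (7 + 1)}, j ≠ i.rev → ∀ s : K, eo i j s ∈ sog 7 K := fun h s =>
    subset_closure ⟨_, _, s, h, rfl⟩
  have mn : ∀ s t u v w x : K, relN s t u v w x ∈ sog 7 K := fun s t u v w x => by
    refine mul_mem (mul_mem ?_ (mul_mem ?_ ?_)) (mul_mem ?_ (mul_mem (mul_mem ?_ (mul_mem ?_ ?_))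
      (mul_mem (mul_mem ?_ (mul_mem ?_ ?_)) (mul_mem ?_ ?_)))) <;> exact me (by decide) _
  have key : ∀ (k : GL (Fin (7 + 1)) K) (hk : ∀ g ∈ sog 7 K, k * g * k⁻¹ ∈ sog 7 K), ∃ S : G2u _ K,
      ∀ s t u v w x, S.n s t u v w x = Ψ ⟨_, hk _ (mn s t u v w x)⟩ := fun k hk =>
    ⟨⟨fun s t u v w x => Ψ ⟨_, hk _ (mn s t u v w x)⟩, fun _ _ _ _ _ _ _ _ _ _ _ _ => by
      rw [← map_mul]
      exact congrArg Ψ (Subtype.ext (by simp only [Nat.reduceAdd, mul_assoc, MulMemClass.mk_mul_mk, inv_mul_cancel_left, ← rel_mul h3])),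
      fun s t u v w x s' t' u' v' w' x' e => by
      rw [← mul_inv_eq_one, ← map_inv, ← map_mul] at e
      obtain ⟨z, hz⟩ := (ker _ e).conj k⁻¹
      refine rel_inj (z := z) ?_
      simp only [Subgroup.coe_mul, Subgroup.coe_inv, _root_.mul_inv_rev, inv_inv, mul_assoc,
        inv_mul_cancel_left, inv_mul_cancel, mul_one] at hz
      rw [← one_mul (relN s' t' u' v' w' x').1, ← smul_mul_assoc, ← hz, ← Units.val_mul,
        inv_mul_cancel_right]⟩, fun _ _ _ _ _ _ => rfl⟩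
  obtain ⟨S, hS⟩ := key 1 (by simp)
  have hx : ∀ (i j : Fin (7 + 1)) (z : ℤ) (k : Fin 4) (e : ℤˣ), j ≠ i.rev ∧ i ≠ j ∧
      rtD (n := 2) i j = Pi.single k (e : ℤ) ∧
      Even (coc (CartanMatrix.D 4) (orta1_W (n := 2) i) (orta1_W (n := 2) j.rev) +
        (if (i : ℕ) < 5 then 0 else 1) + (if (j : ℕ) < 5 then 0 else 1) +
        coc (CartanMatrix.D 4) (orta1_W (n := 2) j) (orta1_W (n := 2) j.rev) + z) →
      ∀ t, ∃ g : sog 7 K, g.1 = eo i j ((-1) ^ z * t) ∧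
        ∀ v, Ψ g v = xo _ (Pi.single k (e : ℤ)) t v :=
    fun i j z k e ⟨h, h', r, p⟩ t => ⟨⟨_, me h _⟩, rfl, fun v => by
      have q := orta1_root (n := 2) one_le_two (a := i) (b := j.rev) (Fin.rev_injective.ne h'.symm)
        fun c => h (Fin.rev_eq_iff.1 c)
      rw [orta1_r, Fin.rev_rev] at q
      rw [orta1_R_eq (n := 2) one_le_two (hF ⟨_, me h _⟩) (orta1_R_eo (n := 2) one_le_two h' h _),
        Good0.xx_apply _ q, r, ← mul_assoc]
      have := p.neg_one_zpow (α := K)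
      simp only [sg_add, apply_ite ((-1 : K) ^ · : ℤ → K), zpow_zero, zpow_one] at this
      rw [orta1_sg, Fin.rev_rev]
      exact congrArg (xo _ _ · v) ((congrArg (· * t) this).trans (one_mul t))⟩
  refine ⟨S, fun t => funext fun v => ?_, fun t => funext fun v => ?_⟩
  · obtain ⟨a, e, r⟩ := hx 0 1 1 0 1 (by decide) t
    obtain ⟨b, e', r'⟩ := hx 2 3 1 2 1 (by decide) t
    obtain ⟨c, e'', r''⟩ := hx 2 4 1 3 1 (by decide) t
    rw [hS, show (⟨_, _⟩ : sog 7 K) = a * (b * c) from Subtype.ext (by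
      simp only [Nat.reduceAdd, relN, reA, Fin.isValue, reB, eo_zero, reC, neg_zero, mul_one, reD, reE, reF, one_mul, inv_one, Subgroup.coe_mul, e, zpow_ofNat, pow_one, neg_mul, e', e'']), map_mul, map_mul, Equiv.Perm.mul_apply,
      Equiv.Perm.mul_apply, r, r', r'']
    rfl
  · obtain ⟨a, e, r⟩ := hx 1 2 0 1 1 (by decide) t
    rw [hS, show (⟨_, _⟩ : sog 7 K) = a from Subtype.ext (by
      simp [relN, reA, reB, reC, reD, reE, reF, e]), r]
    rfl

theorem emb_re (hφ : ∀ s, φ (φ s) = s ^ 3)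
    (hn : Nb (cardFactors (Nat.card (ree (D 4) [([0, 2, 3], 1)] φ))) ≤ n) :
    Emb n (ree (D 4) [([0, 2, 3], 1)] φ) := by
  have hC := goodD (r := 4) (by omega)
  have := (wk_of hC).root_fin
  refine emb_lie (wk_of hC) _ (ree_le _ _) ?_ (by omega) hn
  by_cases h : Nat.card K ≤ 3
  · exact small_le h _
  have h3 := re_three hφ (not_le.1 h)
  obtain ⟨S, a1, b1⟩ := g2u_ex h3
  have n0 : S.n 0 0 0 0 0 0 = 1 := by simpa using S.mul 0 0 0 0 0 0 0 0 0 0 0 0
  refine add_le_top _ (fun c => S.n 0 0 0 c 0 (-φ c)) (fun c => ?_) (fun b d => ?_) fun c e => ?_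
  · refine Subgroup.subset_closure ⟨([0, 2, 3], 1), by simp, 1, ?_⟩
    simp only [a1, b1, DFunLike.coe_fn_eq]
    exact (S.fix hφ h3 (re_ex (not_le.1 h)) _).2 ⟨0, 0, c, by simp⟩
  · rw [S.mul]; simp [add_comm]
  · exact (S.inj _ _ _ _ _ _ _ _ _ _ _ _ (e.trans n0.symm)).2.2.2.1

end Pool.Agent.MP_5f7865_al.KS
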