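import Mathlib

namespace Pool.Agent.MP_5f7865_al.KS

open ArithmeticFunction

/-- Embedding in a general linear group over a prime field. -/
def Emb (n : ℕ) (T : Type) [Group T] : Prop :=
  ∃ p : ℕ, p.Prime ∧ ∃ ρ : T →* Matrix.GeneralLinearGroup (Fin n) (ZMod p), Function.Injective ρ

theorem om_dvd {a b : ℕ} (h : a ∣ b) (hb : b ≠ 0) : cardFactors a ≤ cardFactors b := by
  obtain ⟨c, rfl⟩ := h
  rw [cardFactors_mul (left_ne_zero_of_mul hb) (right_ne_zero_of_mul hb)]
  omega

theorem om_lt {T : Type} [Group T] [Finite T] {H K : Subgroup T} (h : H < K) :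
    cardFactors (Nat.card H) < cardFactors (Nat.card K) := by
  obtain ⟨c, hc⟩ := Subgroup.card_dvd_of_le h.le
  have h0 : Nat.card K ≠ 0 := Nat.card_pos.ne'
  have c1 : c ≠ 1 := by
    rintro rfl
    exact h.ne (Subgroup.eq_of_le_of_card_ge h.le (by omega))
  have c0 : c ≠ 0 := by rintro rfl; simp at hc; exact h0 (by simpa using hc)
  rw [hc, cardFactors_mul Nat.card_pos.ne' c0]
  have : 0 < cardFactors c := cardFactors_pos_iff_one_lt.2 (by omega)
  omega

theorem rank_le {V : Type} (T : Subgroup (Equiv.Perm V)) [Finite T] (m : ℕ)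
    (y : Fin m → Equiv.Perm V) (w : Fin m → V) (hy : ∀ i, y i ∈ T)
    (h1 : ∀ i j, j ≠ i → y j (w i) = w i) (h2 : ∀ i, y i (w i) ≠ w i) :
    m ≤ cardFactors (Nat.card T) := by
  let H : ℕ → Subgroup T := fun n =>
    { carrier := {g | ∀ i : Fin m, n ≤ (i : ℕ) → g.1 (w i) = w i}
      one_mem' := fun _ _ => rfl
      mul_mem' := fun {a b} ha hb i hi => by
        simp only [Subgroup.coe_mul, Equiv.Perm.mul_apply, hb i hi, ha i hi]
      inv_mem' := fun {a} ha i hi => by
        simp only [Subgroup.coe_inv]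
        rw [Equiv.Perm.inv_eq_iff_eq, ha i hi] }
  have key : ∀ n ≤ m, n ≤ cardFactors (Nat.card (H n)) := by
    intro n
    induction n with
    | zero => intro _; exact Nat.zero_le _
    | succ n ih =>
      intro hn
      have : H n < H (n + 1) := by
        refine lt_of_le_of_ne (fun g hg i hi => hg i (by omega)) fun e => ?_
        have a : (⟨y ⟨n, hn⟩, hy _⟩ : T) ∈ H (n + 1) := fun i hi =>
          h1 i ⟨n, hn⟩ fun e => by rw [← e] at hi; simp at hi
        rw [← e] at a
        exact h2 ⟨n, hn⟩ (a ⟨n, hn⟩ le_rfl)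
      have := om_lt this
      have := ih (by omega)
      omega
  exact (key m le_rfl).trans (om_dvd (Subgroup.card_subgroup_dvd_card _) Nat.card_pos.ne')

theorem add_le {K G : Type} [Field K] [Finite K] [Group G] (T : Subgroup G) [Finite T]
    (A : AddSubgroup K) (y : K → G) (hy : ∀ s ∈ A, y s ∈ T)
    (h1 : ∀ s t, y (s + t) = y s * y t) (h2 : ∀ s, y s = 1 → s = 0) :
    Nat.card A ≤ ringChar K ^ cardFactors (Nat.card T) := by
  have := Fintype.ofFinite K
  obtain ⟨n, hp, hn⟩ := FiniteField.card K (ringChar K)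
  let f : Multiplicative A →* T := MonoidHom.mk' (fun s => ⟨y s.toAdd.1, hy _ s.toAdd.2⟩)
    fun a b => Subtype.ext (h1 _ _)
  have hf : Function.Injective f := (injective_iff_map_eq_one f).2 fun a ha =>
    Multiplicative.toAdd.injective (Subtype.ext (h2 _ (congrArg Subtype.val ha)))
  have d1 : Nat.card A ∣ Nat.card T :=
    (Subgroup.card_dvd_of_injective f hf : Nat.card (Multiplicative A) ∣ _)
  have d2 : Nat.card A ∣ ringChar K ^ (n : ℕ) := by
    rw [← hn, ← Nat.card_eq_fintype_card]; exact AddSubgroup.card_addSubgroup_dvd_card A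
  obtain ⟨a, -, ha⟩ := (Nat.dvd_prime_pow hp).1 d2
  have := om_dvd d1 Nat.card_pos.ne'
  rw [ha, cardFactors_apply_prime_pow hp] at this
  rw [ha]
  exact Nat.pow_le_pow_right hp.pos this

theorem add_le_top {K G : Type} [Field K] [Finite K] [Group G] (T : Subgroup G) [Finite T]
    (y : K → G) (hy : ∀ s, y s ∈ T)
    (h1 : ∀ s t, y (s + t) = y s * y t) (h2 : ∀ s, y s = 1 → s = 0) :
    Nat.card K ≤ ringChar K ^ (2 * cardFactors (Nat.card T) + 2) := by
  have := add_le T ⊤ y (fun s _ => hy s) h1 h2
  rw [AddSubgroup.card_top] at this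
  have hp : (ringChar K).Prime := CharP.char_is_prime K _
  exact this.trans (Nat.pow_le_pow_right hp.pos (by omega))

theorem small_le {K : Type} [Field K] [Finite K] (h : Nat.card K ≤ 3) (k : ℕ) :
    Nat.card K ≤ ringChar K ^ (2 * k + 2) := by
  have hp : (ringChar K).Prime := CharP.char_is_prime K _
  have h2 := hp.two_le
  calc Nat.card K ≤ 2 ^ 2 := by omega
    _ ≤ ringChar K ^ 2 := Nat.pow_le_pow_left h2 2
    _ ≤ _ := Nat.pow_le_pow_right hp.pos (by omega)

theorem anti_le {K G : Type} [Field K] [Finite K] [Group G] (T : Subgroup G) [Finite T]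
    (φ : K →+* K) (hφ : ∀ s, φ (φ s) = s) (ne : φ ≠ RingHom.id K)
    (y : K → G) (hy : ∀ s, φ s = -s → y s ∈ T)
    (h1 : ∀ s t, y (s + t) = y s * y t) (h2 : ∀ s, y s = 1 → s = 0) :
    Nat.card K ≤ ringChar K ^ (2 * cardFactors (Nat.card T) + 2) := by
  let A : AddSubgroup K :=
    { carrier := {s | φ s = -s}
      zero_mem' := by simp
      add_mem' := fun {a b} ha hb => by
        simp only [Set.mem_ofPred_eq, map_add] at *; rw [ha, hb]; ring
      neg_mem' := fun {a} ha => by
        simp only [Set.mem_ofPred_eq, map_neg] at *; rw [ha] }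
  have hA := add_le T A y hy h1 h2
  obtain ⟨s, hs⟩ : ∃ s, φ s ≠ s := by
    by_contra! c
    exact ne (RingHom.ext c)
  have hs' : s - φ s ≠ 0 := fun e => hs (sub_eq_zero.1 e).symm
  have m : ∀ t, t - φ t ∈ A := fun t => by
    change φ _ = _
    rw [map_sub, hφ]; ring
  let f : K → A × A := fun t => (⟨t - φ t, m t⟩, ⟨t * s - φ (t * s), m _⟩)
  have hf : Function.Injective f := fun a b e => by
    have e1 : a - φ a = b - φ b := congrArg (fun z : A × A => z.1.1) e
    have e2 : a * s - φ (a * s) = b * s - φ (b * s) := congrArg (fun z : A × A => z.2.1) e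
    rw [map_mul, map_mul] at e2
    have : (a - b) * (s - φ s) = 0 := by linear_combination e2 - φ s * e1
    exact sub_eq_zero.1 ((mul_eq_zero.1 this).resolve_right hs')
  have h3 := Nat.card_le_card_of_injective f hf
  rw [Nat.card_prod] at h3
  have hp : (ringChar K).Prime := CharP.char_is_prime K _
  calc Nat.card K ≤ _ := h3
    _ ≤ ringChar K ^ cardFactors (Nat.card T) * ringChar K ^ cardFactors (Nat.card T) :=
      Nat.mul_le_mul hA hA
    _ ≤ _ := by rw [← pow_add]; exact Nat.pow_le_pow_right hp.pos (by omega)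

theorem emb_of_mod {V T : Type} [AddCommGroup V] [Finite V] [Group T] (p : ℕ) [Fact p.Prime]
    [Module (ZMod p) V] (n : ℕ) (hn : Nat.card V ≤ p ^ n) (f : T →* Equiv.Perm V)
    (hf : Function.Injective f) (ha : ∀ g a b, f g (a + b) = f g a + f g b) : Emb n T := by
  have hp : p.Prime := Fact.out
  have : Module.Finite (ZMod p) V := Module.Finite.of_finite
  have fr : Module.finrank (ZMod p) V ≤ n := by
    rw [Module.natCard_eq_pow_finrank (K := ZMod p), Nat.card_zmod] at hn
    exact (Nat.pow_le_pow_iff_right hp.one_lt).1 hn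
  obtain ⟨d, hd⟩ := Nat.exists_eq_add_of_le fr
  let W := V × (Fin d → ZMod p)
  have fw : Module.finrank (ZMod p) W = n := by
    simp [W, Module.finrank_prod, hd]
  let b : Module.Basis (Fin n) (ZMod p) W := Module.finBasisOfFinrankEq _ _ fw
  let l : T → (V →ₗ[ZMod p] V) := fun g => (AddMonoidHom.mk' (f g) (ha g)).toZModLinearMap p
  let F : T →* Module.End (ZMod p) W :=
    { toFun := fun g => (l g).prodMap LinearMap.id
      map_one' := by
        refine LinearMap.ext fun v => Prod.ext ?_ rfl
        change f 1 v.1 = v.1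
        simp
      map_mul' := fun g h => by
        refine LinearMap.ext fun v => Prod.ext ?_ rfl
        change f (g * h) v.1 = f g (f h v.1)
        simp }
  let M : T →* Matrix (Fin n) (Fin n) (ZMod p) :=
    (LinearMap.toMatrixAlgEquiv b).toMulEquiv.toMonoidHom.comp F
  refine ⟨p, hp, M.toHomUnits, fun g h e => hf (Equiv.ext fun v => ?_)⟩
  have e1 : M g = M h := congrArg Units.val e
  have e2 : F g = F h := (LinearMap.toMatrixAlgEquiv b).injective e1
  exact congrArg (fun L : Module.End (ZMod p) W => (L (v, 0)).1) e2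

theorem emb_of_add {V T : Type} [AddCommGroup V] [Finite V] [Group T] (p : ℕ) (hp : p.Prime)
    (hV : ∀ v : V, p • v = 0) (n : ℕ) (hn : Nat.card V ≤ p ^ n) (f : T →* Equiv.Perm V)
    (hf : Function.Injective f) (ha : ∀ g a b, f g (a + b) = f g a + f g b) : Emb n T :=
  have : Fact p.Prime := ⟨hp⟩
  @emb_of_mod V T _ _ _ p _ (AddCommGroup.zmodModule hV) n hn f hf ha

theorem emb_of_perm {Ω T : Type} [Finite Ω] [Group T] (n : ℕ) (hn : Nat.card Ω ≤ n)
    (f : T →* Equiv.Perm Ω) (hf : Function.Injective f) : Emb n T := by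
  classical
  let F : T →* Equiv.Perm (Ω → ZMod 2) :=
    { toFun := fun g => Equiv.arrowCongr (f g) (Equiv.refl _)
      map_one' := by ext v x; simp [Equiv.arrowCongr_apply, ← Equiv.Perm.inv_def]
      map_mul' := fun g h => by
        ext v x; simp [Equiv.arrowCongr_apply, ← Equiv.Perm.inv_def] }
  refine emb_of_add 2 Nat.prime_two (fun v => ?_) n ?_ F (fun g h e => hf ?_) fun g a b => rfl
  · ext x
    change (2 : ℕ) • v x = 0
    generalize v x = z
    revert z; decide
  · rw [Nat.card_fun, Nat.card_zmod]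
    exact Nat.pow_le_pow_right (by norm_num) hn
  · ext x
    have := congrArg (fun L : Equiv.Perm (Ω → ZMod 2) => L (Pi.single x 1) (f g x)) e
    simp only [F, MonoidHom.coe_mk, OneHom.coe_mk, Equiv.arrowCongr_apply, Equiv.coe_refl,
      Function.comp_apply, id_eq, Equiv.symm_apply_apply, Pi.single_eq_same] at this
    by_contra c
    rw [Pi.single_eq_of_ne fun e' => c ((Equiv.symm_apply_eq _).1 e')] at this
    exact one_ne_zero this

theorem emb_small {T : Type} [Group T] [Finite T] (n : ℕ) (hn : Nat.card T ≤ n) : Emb n T :=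
  emb_of_perm n hn (MulAction.toPermHom T T) MulAction.toPerm_injective

theorem om_fact (m : ℕ) : m ≤ cardFactors m.factorial + 1 := by
  induction m with
  | zero => simp
  | succ m ih =>
    rw [Nat.factorial_succ, cardFactors_mul (by omega) m.factorial_ne_zero]
    rcases Nat.eq_zero_or_pos m with rfl | h
    · simp
    · have : 0 < cardFactors (m + 1) := cardFactors_pos_iff_one_lt.2 (by omega)
      omega

theorem emb_alt (m n : ℕ) (hn : cardFactors (Nat.card (alternatingGroup (Fin m))) + 2 ≤ n) :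
    Emb n (alternatingGroup (Fin m)) := by
  refine emb_of_perm n ?_ (Subgroup.subtype _) Subtype.val_injective
  rw [Nat.card_eq_fintype_card, Fintype.card_fin]
  by_cases h : m ≤ 2
  · omega
  have : Nontrivial (Fin m) := Fin.nontrivial_iff_two_le.2 (by omega)
  have e := two_mul_nat_card_alternatingGroup (α := Fin m)
  rw [Nat.card_perm, Nat.card_fin] at e
  have := om_fact m
  rw [← e, cardFactors_mul (by norm_num) Nat.card_pos.ne',
    cardFactors_apply_prime Nat.prime_two] at this
  omega

theorem Emb.of_equiv {S T : Type} [Group S] [Group T] {n : ℕ} (h : Emb n T) (e : S ≃* T) :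
    Emb n S := by
  obtain ⟨p, hp, ρ, hρ⟩ := h
  exact ⟨p, hp, ρ.comp e.toMonoidHom, hρ.comp e.injective⟩

end Pool.Agent.MP_5f7865_al.KS
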